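import Pool.Agent.Lib.MP_cbd9f1_co.BipRoot

namespace Pool.Agent.Results.MP_cbd9f1_co.BipartiteGirth

open Pool.Agent.Lib.MP_cbd9f1_co

/-- For `j ≥ 1` and `g ≤ 6 j + 4`, `(2 j + 1) / (5 j + 2)` is the least constant `c` such that every
finite bipartite digraph without sources and without closed directed walks of positive length
below `g`, in which every vertex is reachable from a set `R` or from a directed cycle of length at
least `6 j`, has a quasi-kernel with at most `c (n + |R|)` vertices. -/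
theorem result (j g : ℕ) (hj : 1 ≤ j) (h2 : g ≤ 6 * j + 4) :
    IsLeast {c : ℝ | ∀ (V : Type) [Fintype V] (G : Digraph V) (R : Finset V),
    (∃ col : V → Bool, ∀ u v : V, G.Adj u v → col u ≠ col v) →
    (∀ v : V, ∃ u : V, G.Adj u v) →
    (∀ l : ℕ, 0 < l → l < g → ∀ f : ℕ → V, (∀ i < l, G.Adj (f i) (f (i + 1))) → f l ≠ f 0) →
    (∀ v : V, ∃ u : V, Relation.ReflTransGen G.Adj u v ∧ (u ∈ R ∨ ∃ l : ℕ, 6 * j ≤ l ∧
      ∃ f : ZMod l → V, Function.Injective f ∧ f 0 = u ∧ ∀ i, G.Adj (f i) (f (i + 1)))) →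
    ∃ Q : Finset V, (∀ u ∈ Q, ∀ v ∈ Q, ¬ G.Adj u v) ∧
      (∀ v : V, v ∉ Q → ∃ q ∈ Q, G.Adj q v ∨ ∃ w : V, G.Adj q w ∧ G.Adj w v) ∧
      (Q.card : ℝ) ≤ c * (Fintype.card V + R.card)} ((2 * j + 1) / (5 * j + 2)) := by
  have p : (0 : ℝ) < 5 * j + 2 := by positivity
  have p1 : (1 : ℝ) ≤ j := by exact_mod_cast hj
  refine ⟨fun V _ G R ⟨col, hcol⟩ hs _ H => ?_, fun c hc => ?_⟩
  · obtain ⟨Q, a, b, h⟩ := Bip.upper_root j hj V G R col hcol hs H
    refine ⟨Q, a, b, ?_⟩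
    rw [div_mul_eq_mul_div, le_div_iff₀ p, mul_comm]
    exact_mod_cast h
  · by_contra n
    rw [not_le, lt_div_iff₀ p] at n
    obtain ⟨k, hk⟩ := exists_nat_gt (1 / (2 * j + 1 - c * (5 * j + 2)))
    rw [div_lt_iff₀ (by linarith)] at hk
    obtain ⟨Q, a, b, h⟩ := hc _ (Bip.ex j (k + 1)) ∅ ⟨_, Bip.ex_col⟩ Bip.ex_src
      (fun l h0 hl => Bip.ex_girth l h0 (by omega)) fun v => by
        obtain ⟨i, h⟩ := Bip.ex_reach v
        exact ⟨_, h, Or.inr ⟨6 * j + 4, by omega, fun a => .inl (i, .inl a),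
          fun a b e => Sum.inl.inj (congrArg Prod.snd (Sum.inl.inj e)), rfl, fun _ => ⟨rfl, rfl⟩⟩⟩
    have l : (((k + 1) * (4 * j + 2) : ℕ) : ℝ) ≤ Q.card := by exact_mod_cast Bip.lower Q a b
    rw [Bip.card_Vx, Finset.card_empty] at h
    push_cast at h l
    have c1 : c < 1 := by nlinarith
    nlinarith

/-- The examples: `k (10 j + 4) + 2` vertices, all reachable from a set of `k` vertices, and every
quasi-kernel has at least `k (4 j + 2)` vertices. -/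
theorem examples (j k : ℕ) (hk : 1 ≤ k) :
    ∃ (V : Type) (_ : Fintype V) (G : Digraph V) (R : Finset V),
      Fintype.card V = k * (10 * j + 4) + 2 ∧ R.card = k ∧
      (∃ col : V → Bool, ∀ u v : V, G.Adj u v → col u ≠ col v) ∧
      (∀ v : V, ∃ u : V, G.Adj u v) ∧
      (∀ l : ℕ, 0 < l → l < 6 * j + 4 → ∀ f : ℕ → V,
        (∀ i < l, G.Adj (f i) (f (i + 1))) → f l ≠ f 0) ∧
      (∀ v : V, ∃ u ∈ R, Relation.ReflTransGen G.Adj u v) ∧
      ∀ Q : Finset V, (∀ u ∈ Q, ∀ v ∈ Q, ¬ G.Adj u v) →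
        (∀ v : V, v ∉ Q → ∃ q ∈ Q, G.Adj q v ∨ ∃ w : V, G.Adj q w ∧ G.Adj w v) →
        k * (4 * j + 2) ≤ Q.card := by
  obtain ⟨k, rfl⟩ : ∃ m, k = m + 1 := ⟨k - 1, by omega⟩
  refine ⟨_, inferInstance, Bip.ex j (k + 1), Finset.univ.map ⟨fun i => .inl (i, .inl 0), ?_⟩,
    Bip.card_Vx, by simp, ⟨_, Bip.ex_col⟩, Bip.ex_src, Bip.ex_girth, fun v => ?_, Bip.lower⟩
  · exact fun a b e => congrArg Prod.fst (Sum.inl.inj e)
  · obtain ⟨i, h⟩ := Bip.ex_reach v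
    exact ⟨_, Finset.mem_map_of_mem _ (Finset.mem_univ i), h⟩

/-- The limit of large `j`: if every vertex is reachable from `R`, then `5 |Q| ≤ 2 (n + |R|)`. -/
theorem two_fifths (V : Type) [Fintype V] (G : Digraph V) (R : Finset V)
    (hb : ∃ col : V → Bool, ∀ u v : V, G.Adj u v → col u ≠ col v)
    (hs : ∀ v : V, ∃ u : V, G.Adj u v)
    (H : ∀ v : V, ∃ u ∈ R, Relation.ReflTransGen G.Adj u v) :
    ∃ Q : Finset V, (∀ u ∈ Q, ∀ v ∈ Q, ¬ G.Adj u v) ∧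
      (∀ v : V, v ∉ Q → ∃ q ∈ Q, G.Adj q v ∨ ∃ w : V, G.Adj q w ∧ G.Adj w v) ∧
      5 * Q.card ≤ 2 * (Fintype.card V + R.card) := by
  obtain ⟨col, hcol⟩ := hb
  obtain ⟨Q, a, b, c⟩ := Bip.upper_root (Fintype.card V + R.card + 1) (by omega) V G R col hcol hs
    fun v => (H v).imp fun u h => ⟨h.2, Or.inl h.1⟩
  refine ⟨Q, a, b, ?_⟩
  generalize Fintype.card V + R.card = N at c ⊢
  by_contra n
  nlinarith [Nat.mul_le_mul_left (N + 1) (not_le.1 n)]

/-- For `j ≥ 1` and `6 j ≤ g ≤ 6 j + 4`, `(2 j + 1) / (5 j + 2)` is the least constant `c` such that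
every finite bipartite digraph without sources and without closed directed walks of positive
length below `g` has a quasi-kernel with at most `c n` vertices. -/
theorem girth (j g : ℕ) (hj : 1 ≤ j) (h1 : 6 * j ≤ g) (h2 : g ≤ 6 * j + 4) :
    IsLeast {c : ℝ | ∀ (V : Type) [Fintype V] (G : Digraph V),
    (∃ col : V → Bool, ∀ u v : V, G.Adj u v → col u ≠ col v) →
    (∀ v : V, ∃ u : V, G.Adj u v) →
    (∀ l : ℕ, 0 < l → l < g → ∀ f : ℕ → V, (∀ i < l, G.Adj (f i) (f (i + 1))) → f l ≠ f 0) →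
    ∃ Q : Finset V, (∀ u ∈ Q, ∀ v ∈ Q, ¬ G.Adj u v) ∧
      (∀ v : V, v ∉ Q → ∃ q ∈ Q, G.Adj q v ∨ ∃ w : V, G.Adj q w ∧ G.Adj w v) ∧
      (Q.card : ℝ) ≤ c * Fintype.card V} ((2 * j + 1) / (5 * j + 2)) := by
  have p : (0 : ℝ) < 5 * j + 2 := by positivity
  have p1 : (1 : ℝ) ≤ j := by exact_mod_cast hj
  refine ⟨fun V _ G ⟨col, hcol⟩ hs hg => ?_, fun c hc => ?_⟩
  · obtain ⟨Q, a, b, h⟩ := Bip.upper j hj V G col hcol hs fun l a b => hg l a (by omega)
    refine ⟨Q, a, b, ?_⟩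
    rw [div_mul_eq_mul_div, le_div_iff₀ p, mul_comm]
    exact_mod_cast h
  · by_contra n
    rw [not_le, lt_div_iff₀ p] at n
    obtain ⟨k, hk⟩ := exists_nat_gt (1 / (2 * j + 1 - c * (5 * j + 2)))
    rw [div_lt_iff₀ (by linarith)] at hk
    obtain ⟨Q, a, b, h⟩ := hc _ (Bip.ex j (k + 1)) ⟨_, Bip.ex_col⟩ Bip.ex_src
      fun l h0 hl => Bip.ex_girth l h0 (by omega)
    have l : (((k + 1) * (4 * j + 2) : ℕ) : ℝ) ≤ Q.card := by exact_mod_cast Bip.lower Q a b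
    rw [Bip.card_Vx] at h
    push_cast at h l
    have c1 : c < 1 := by nlinarith
    nlinarith

/-- The case `g = 6` in the usual wording: no directed two-cycle and no directed four-cycle. -/
theorem three_sevenths : IsLeast {c : ℝ | ∀ (V : Type) [Fintype V] (G : Digraph V),
    (∃ col : V → Bool, ∀ u v : V, G.Adj u v → col u ≠ col v) →
    (∀ v : V, ∃ u : V, G.Adj u v) →
    (∀ u v : V, G.Adj u v → ¬ G.Adj v u) →
    (∀ x y z w : V, x ≠ z → y ≠ w → G.Adj x y → G.Adj y z → G.Adj z w → ¬ G.Adj w x) →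
    ∃ Q : Finset V, (∀ u ∈ Q, ∀ v ∈ Q, ¬ G.Adj u v) ∧
      (∀ v : V, v ∉ Q → ∃ q ∈ Q, G.Adj q v ∨ ∃ w : V, G.Adj q w ∧ G.Adj w v) ∧
      (Q.card : ℝ) ≤ c * Fintype.card V} (3 / 7) := by
  have r := girth 1 6 le_rfl le_rfl (by omega)
  rw [show (2 * ((1 : ℕ) : ℝ) + 1) / (5 * (1 : ℕ) + 2) = 3 / 7 by norm_num] at r
  refine ⟨fun V _ G ⟨col, hcol⟩ hs h2 h4 => r.1 V G ⟨col, hcol⟩ hs fun l a b f hf e => ?_,
    fun c hc => r.2 fun V _ G hb hs hg => hc V G hb hs (fun u v a b => ?_)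
      fun x y z w _ _ a b c d => ?_⟩
  · have k := fun i (h : i < l) => hcol _ _ (hf i h)
    have t : ∀ a b c d : Bool, a ≠ b → b ≠ c → c ≠ d → a ≠ d := by decide
    interval_cases l
    · exact k 0 (by omega) (by rw [e])
    · exact h2 _ _ (hf 0 (by omega)) (e ▸ hf 1 (by omega))
    · exact t _ _ _ _ (k 0 (by omega)) (k 1 (by omega)) (k 2 (by omega)) (by rw [e])
    · exact h4 (f 0) (f 1) (f 2) (f 3)
        (fun g => h2 _ _ (hf 0 (by omega)) (by rw [g]; exact hf 1 (by omega)))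
        (fun g => h2 _ _ (hf 1 (by omega)) (by rw [g]; exact hf 2 (by omega))) (hf 0 (by omega))
        (hf 1 (by omega)) (hf 2 (by omega)) (e ▸ hf 3 (by omega))
    · exact t _ _ _ _ (t _ _ _ _ (k 0 (by omega)) (k 1 (by omega)) (k 2 (by omega)))
        (k 3 (by omega)) (k 4 (by omega)) (by rw [e])
  · exact hg 2 (by omega) (by omega) (fun i => if i = 1 then v else u)
      (fun i h => by interval_cases i <;> simpa) (by simp)
  · exact hg 4 (by omega) (by omega)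
      (fun i => if i = 1 then y else if i = 2 then z else if i = 3 then w else x)
      (fun i h => by interval_cases i <;> simpa) (by simp)

end Pool.Agent.Results.MP_cbd9f1_co.BipartiteGirth
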