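import Pool.Agent.Lib.MP_cbd9f1_co.Frac

set_option autoImplicit false

namespace Pool.Agent.Results.MP_cbd9f1_co.Fractional

open Pool.Agent.Lib.MP_cbd9f1_co.Pf Finset Classical

/-- Let `B 0, …, B (m-1)` be vertex sets all of whose subsets have a kernel, let `θ ≤ 1/2`, and
suppose every vertex that is not a source has an in-neighbour lying in at least `θ m` of them.
Then some quasi-kernel has at most `|S| + (1 - θ) (n - |S| - |Γ⁺(S)|)` vertices. -/
theorem result (V : Type) [Fintype V] (G : Digraph V) (hloop : ∀ v : V, ¬ G.Adj v v)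
    (m : ℕ) (hm : 0 < m) (B : Fin m → Finset V)
    (hB : ∀ i, ∀ t ⊆ B i,
      ∃ K ⊆ t, (∀ x ∈ K, ∀ y ∈ K, ¬ G.Adj x y) ∧ ∀ u ∈ t, u ∉ K → ∃ q ∈ K, G.Adj q u)
    (θ : ℝ) (hθ : θ ≤ 1 / 2)
    (hp : ∀ v : V, (∃ u, G.Adj u v) → ∃ u, G.Adj u v ∧ θ * m ≤ ({i | u ∈ B i}.ncard : ℝ))
    (S N : Finset V) (hS : ∀ v : V, v ∈ S ↔ ∀ u : V, ¬ G.Adj u v)
    (hN : ∀ w : V, w ∈ N ↔ ∃ s ∈ S, G.Adj s w) :
    ∃ Q : Finset V,
      (∀ u ∈ Q, ∀ v ∈ Q, ¬ G.Adj u v) ∧
      (∀ v : V, v ∉ Q → ∃ q ∈ Q, G.Adj q v ∨ ∃ w : V, G.Adj q w ∧ G.Adj w v) ∧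
      (Q.card : ℝ) ≤ S.card + (1 - θ) * (Fintype.card V - S.card - N.card) := by
  have : Nonempty (Fin m) := ⟨⟨0, hm⟩⟩
  refine frac_all G hloop hB hθ (fun u v h => (hp v ⟨u, h⟩).imp fun y k => ⟨k.1, ?_⟩) S N hS hN
  rw [Fintype.card_fin, ← Set.ncard_coe_finset, coe_filter]
  simpa using k.2

/-- The case of a fractional colouring: independent sets `I i`, every vertex that is not a source
has an in-neighbour in at least a share `x` of them. For `2 (1 - x)^2 ≤ 1`, in particular for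
fractional chromatic number `1/x ≤ 2 + √2`, the bound of the problem holds. -/
theorem fractional_colouring (V : Type) [Fintype V] (G : Digraph V)
    (hloop : ∀ v : V, ¬ G.Adj v v) (m : ℕ) (hm : 0 < m) (I : Fin m → Finset V)
    (hI : ∀ i, ∀ u ∈ I i, ∀ v ∈ I i, ¬ G.Adj u v) (x θ : ℝ) (hθ : θ ≤ 1 / 2)
    (hx : θ ≤ 1 - (1 - x) ^ 2)
    (hp : ∀ v : V, (∃ u, G.Adj u v) → ∃ u, G.Adj u v ∧ x * m ≤ ({i | u ∈ I i}.ncard : ℝ))
    (S N : Finset V) (hS : ∀ v : V, v ∈ S ↔ ∀ u : V, ¬ G.Adj u v)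
    (hN : ∀ w : V, w ∈ N ↔ ∃ s ∈ S, G.Adj s w) :
    ∃ Q : Finset V,
      (∀ u ∈ Q, ∀ v ∈ Q, ¬ G.Adj u v) ∧
      (∀ v : V, v ∉ Q → ∃ q ∈ Q, G.Adj q v ∨ ∃ w : V, G.Adj q w ∧ G.Adj w v) ∧
      (Q.card : ℝ) ≤ S.card + (1 - θ) * (Fintype.card V - S.card - N.card) := by
  have : Nonempty (Fin m) := ⟨⟨0, hm⟩⟩
  refine frac_all G hloop (B := fun p : Fin m × Fin m => I p.1 ∪ I p.2)
    (fun p => kp_union (hI _) (hI _)) hθ
    (fun u v h => (hp v ⟨u, h⟩).imp fun y k => ⟨k.1, ?_⟩) S N hS hN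
  have h1 : x * m ≤ ((univ.filter fun i => y ∈ I i).card : ℝ) := by
    rw [← Set.ncard_coe_finset, coe_filter]
    simpa using k.2
  have h2 : ((univ.filter fun i => y ∈ I i).card : ℝ) +
      (univ.filter fun i => y ∉ I i).card = m := by
    exact_mod_cast (card_filter_add_card_filter_not (s := univ) fun i => y ∈ I i).trans (by simp)
  have h3 := card_filter_add_card_filter_not (s := (univ : Finset (Fin m × Fin m)))
    fun p => y ∈ I p.1 ∪ I p.2
  have h4 : (univ.filter fun p : Fin m × Fin m => ¬ y ∈ I p.1 ∪ I p.2) =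
      (univ.filter fun i => y ∉ I i) ×ˢ (univ.filter fun i => y ∉ I i) := by
    ext p
    simp
  rw [h4, card_product, card_univ] at h3
  have h5 : ((univ.filter fun p : Fin m × Fin m => y ∈ I p.1 ∪ I p.2).card : ℝ) +
      (univ.filter fun i => y ∉ I i).card * (univ.filter fun i => y ∉ I i).card =
      Fintype.card (Fin m × Fin m) := by exact_mod_cast h3
  have h6 : (Fintype.card (Fin m × Fin m) : ℝ) = m * m := by simp
  have h7 : (0 : ℝ) ≤ (univ.filter fun i => y ∉ I i).card := Nat.cast_nonneg _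
  have h8 := mul_self_le_mul_self h7
    (by linarith : ((univ.filter fun i => y ∉ I i).card : ℝ) ≤ (1 - x) * m)
  have h9 := mul_le_mul_of_nonneg_right hx (by positivity : (0 : ℝ) ≤ m * m)
  rw [h6] at h5 ⊢
  linarith

/-- Every orientation of a shift graph, or of the underlying graph of a line digraph: the vertex
`v` is an arc from `a v` to `b v`, and adjacent vertices are consecutive arcs. -/
theorem shift (V : Type) [Fintype V] (G : Digraph V) (n : ℕ) (a b : V → Fin n)
    (hab : ∀ v, a v ≠ b v) (h : ∀ u v, G.Adj u v → b u = a v ∨ b v = a u)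
    (S N : Finset V) (hS : ∀ v : V, v ∈ S ↔ ∀ u : V, ¬ G.Adj u v)
    (hN : ∀ w : V, w ∈ N ↔ ∃ s ∈ S, G.Adj s w) :
    ∃ Q : Finset V,
      (∀ u ∈ Q, ∀ v ∈ Q, ¬ G.Adj u v) ∧
      (∀ v : V, v ∉ Q → ∃ q ∈ Q, G.Adj q v ∨ ∃ w : V, G.Adj q w ∧ G.Adj w v) ∧
      (2 * (Q.card : ℤ) ≤ (Fintype.card V : ℤ) + (S.card : ℤ) - (N.card : ℤ)) := by
  have hI : ∀ (f : Fin n → Bool) (c : Bool),
      Ind G.Adj (univ.filter fun v => f (a v) = c ∧ f (b v) = !c) := fun f c u hu v hv k => by
    obtain ⟨h1, h2⟩ := (mem_filter.1 hu).2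
    obtain ⟨h3, h4⟩ := (mem_filter.1 hv).2
    rcases h u v k with e | e
    · simp [e, h3] at h2
    · simp [e, h1] at h4
  obtain ⟨Q, h1, h2, h3⟩ := frac_all G (fun v k => hab v ((h v v k).elim Eq.symm Eq.symm))
    (fun f : Fin n → Bool => kp_union (hI f true) (hI f false)) (θ := 1 / 2) le_rfl
    (fun u v k => ⟨u, k, by
      have e1 := card_filter_add_card_filter_not (s := (univ : Finset (Fin n → Bool)))
        fun f => f (a u) = f (b u)
      have e2 : (univ.filter fun f : Fin n → Bool => f (a u) = f (b u)).card ≤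
          (univ.filter fun f : Fin n → Bool => ¬ f (a u) = f (b u)).card := by
        refine card_le_card_of_injOn (fun f => Function.update f (a u) (!f (a u)))
          (fun f hf => ?_) fun f _ g _ e => ?_
        · have := (mem_filter.1 (mem_coe.1 hf)).2
          simp [Function.update_of_ne (hab u).symm, this]
        · funext i
          have := congrFun e i
          by_cases c : i = a u
          · simpa [c] using this
          · simpa [Function.update_of_ne c] using this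
      have e3 : (univ.filter fun f : Fin n → Bool => ¬ f (a u) = f (b u)).card ≤
          (univ.filter fun f : Fin n → Bool =>
            u ∈ (univ.filter fun v => f (a v) = true ∧ f (b v) = !true) ∪
              univ.filter fun v => f (a v) = false ∧ f (b v) = !false).card := by
        refine card_le_card fun f hf => ?_
        have := (mem_filter.1 hf).2
        simp only [mem_filter, mem_union, mem_univ, true_and]
        revert this
        cases f (a u) <;> cases f (b u) <;> simp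
      rw [card_univ] at e1
      rw [one_div, inv_mul_le_iff₀ two_pos]
      exact_mod_cast (by omega)⟩) S N hS hN
  refine ⟨Q, h1, h2, ?_⟩
  have : (2 * Q.card : ℝ) ≤ Fintype.card V + S.card - N.card := by linarith
  exact_mod_cast this

end Pool.Agent.Results.MP_cbd9f1_co.Fractional
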