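import Pool.Agent.Lib.MP_cbd9f1_co.PerfE

set_option autoImplicit false

namespace Pool.Agent.Results.MP_cbd9f1_co.Modules

open Pool.Agent.Lib.MP_cbd9f1_co.Pf Finset Classical

/-- Label the vertices of a finite loopless digraph. Suppose that inside each strong component
the label classes are modules of the underlying graph, the underlying graph with every class
made a clique is perfect, and every set of vertices of the class of `v` not adjacent to `v`
has a kernel. Then there is a quasi-kernel with `2|Q| ≤ n + |S| - |Γ⁺(S)|`. -/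
theorem result (V : Type) [Fintype V] (G : Digraph V) (hloop : ∀ v : V, ¬ G.Adj v v)
    (f : V → ℕ)
    (hmod : ∀ u u' v : V, Relation.ReflTransGen G.Adj u u' → Relation.ReflTransGen G.Adj u' v →
      Relation.ReflTransGen G.Adj v u → f u = f u' → f u ≠ f v →
      G.Adj u v ∨ G.Adj v u → G.Adj u' v ∨ G.Adj v u')
    (hperf : ∀ s : Set V, (∀ u ∈ s, ∀ v ∈ s, Relation.ReflTransGen G.Adj u v) →
      ((SimpleGraph.fromRel fun u v => G.Adj u v ∨ f u = f v).induce s).chromaticNumber =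
        (((SimpleGraph.fromRel fun u v => G.Adj u v ∨ f u = f v).induce s).cliqueNum : ℕ∞))
    (hker : ∀ (v : V) (t : Finset V),
      (∀ u ∈ t, Relation.ReflTransGen G.Adj u v ∧ Relation.ReflTransGen G.Adj v u ∧
        f u = f v ∧ ¬ G.Adj u v ∧ ¬ G.Adj v u) →
      ∃ k ⊆ t, (∀ x ∈ k, ∀ y ∈ k, ¬ G.Adj x y) ∧ ∀ u ∈ t, u ∉ k → ∃ q ∈ k, G.Adj q u)
    (S N : Finset V) (hS : ∀ v : V, v ∈ S ↔ ∀ u : V, ¬ G.Adj u v)
    (hN : ∀ w : V, w ∈ N ↔ ∃ s ∈ S, G.Adj s w) :
    ∃ Q : Finset V,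
      (∀ u ∈ Q, ∀ v ∈ Q, ¬ G.Adj u v) ∧
      (∀ v : V, v ∉ Q → ∃ q ∈ Q, G.Adj q v ∨ ∃ w : V, G.Adj q w ∧ G.Adj w v) ∧
      (2 * (Q.card : ℤ) ≤ (Fintype.card V : ℤ) + (S.card : ℤ) - (N.card : ℤ)) := by
  refine small_of_all G (large_all fun K hK => ?_) S N hS hN
  obtain ⟨L, hL⟩ := loc_of_mod hloop f K
    (fun u hu u' hu' v hv => hmod u u' v (hK u hu u' hu') (hK u' hu' v hv) (hK v hv u hu))
    (fun v hv t ht h => hker v t fun u hu => ⟨hK u (ht hu) v hv, hK v hv u (ht hu), h u hu⟩)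
  have hB : ∀ v, ¬ (G.Adj v v ∨ (f v = f v ∧ v ≠ v)) := fun v h =>
    h.elim (hloop v) fun h => h.2 rfl
  refine large_of_loc hB hL
    (perf_of ⟨fun u v => G.Adj u v ∨ (f u = f v ∧ u ≠ v)⟩ hB K fun s hs => ?_)
  have e : (SimpleGraph.fromRel fun u v => G.Adj u v ∨ (f u = f v ∧ u ≠ v)) =
      SimpleGraph.fromRel fun u v => G.Adj u v ∨ f u = f v := by
    ext u v
    simp only [SimpleGraph.fromRel_adj]
    refine and_congr_right fun h => ?_
    have h' := h.symm
    tauto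
  simp only [e]
  exact hperf s fun u hu v hv => hK u (hs hu) v (hs hv)

/-- The case of distinct labels: strong components with perfect underlying graph. -/
theorem perfect (V : Type) [Fintype V] (G : Digraph V) (hloop : ∀ v : V, ¬ G.Adj v v)
    (hperf : ∀ s : Set V, (∀ u ∈ s, ∀ v ∈ s, Relation.ReflTransGen G.Adj u v) →
      ((SimpleGraph.fromRel G.Adj).induce s).chromaticNumber =
        (((SimpleGraph.fromRel G.Adj).induce s).cliqueNum : ℕ∞))
    (S N : Finset V) (hS : ∀ v : V, v ∈ S ↔ ∀ u : V, ¬ G.Adj u v)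
    (hN : ∀ w : V, w ∈ N ↔ ∃ s ∈ S, G.Adj s w) :
    ∃ Q : Finset V,
      (∀ u ∈ Q, ∀ v ∈ Q, ¬ G.Adj u v) ∧
      (∀ v : V, v ∉ Q → ∃ q ∈ Q, G.Adj q v ∨ ∃ w : V, G.Adj q w ∧ G.Adj w v) ∧
      (2 * (Q.card : ℤ) ≤ (Fintype.card V : ℤ) + (S.card : ℤ) - (N.card : ℤ)) := by
  have hf : ∀ {u v : V}, (Fintype.equivFin V u : ℕ) = Fintype.equivFin V v → u = v :=
    fun h => (Fintype.equivFin V).injective (Fin.ext h)
  have e : (SimpleGraph.fromRel fun u v =>
      G.Adj u v ∨ (Fintype.equivFin V u : ℕ) = Fintype.equivFin V v) =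
      SimpleGraph.fromRel G.Adj := by
    ext u v
    simp only [SimpleGraph.fromRel_adj]
    refine and_congr_right fun h => ?_
    have h1 := fun e => h (hf e)
    have h2 := fun e => h.symm (hf e)
    tauto
  refine result V G hloop (fun v => Fintype.equivFin V v) (fun u u' v _ _ _ h _ => hf h ▸ id)
    (by simpa only [e] using hperf) (fun v t h => ⟨t, Subset.rfl, fun x hx y hy => ?_,
      fun u h1 h2 => absurd h1 h2⟩) S N hS hN
  rw [hf (h x hx).2.2.1, hf (h y hy).2.2.1]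
  exact hloop v

end Pool.Agent.Results.MP_cbd9f1_co.Modules
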