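import Pool.Agent.Lib.MP_cbd9f1_co.Small

namespace Pool.Agent.Results.MP_cbd9f1_co.ThreeQuarters

open Pool.Agent.Lib.MP_cbd9f1_co Finset

theorem result (V : Type) [Fintype V] (G : Digraph V) (hG : ∀ v : V, ¬ G.Adj v v)
    (S : Finset V) (hS : ∀ v : V, v ∈ S ↔ ∀ u : V, ¬ G.Adj u v) :
    ∃ Q : Finset V,
      (∀ u ∈ Q, ∀ v ∈ Q, ¬ G.Adj u v) ∧
      (∀ v : V, v ∉ Q → ∃ q ∈ Q, G.Adj q v ∨ ∃ w : V, G.Adj q w ∧ G.Adj w v) ∧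
      ((Fintype.card V : ℤ) - S.card) ^ 3 ≤
        55000 * ((Fintype.card V : ℤ) - Q.card) ^ 4 * (Nat.log 2 (Fintype.card V) + 1) ^ 2 := by
  classical
  obtain ⟨Q, hQ, h⟩ := small hG hS
  refine ⟨Q, hQ.ind, fun v hv => ?_, ?_⟩
  · rcases mem_cl.1 (hQ.dom (mem_univ v)) with h | ⟨w, hw, hwv⟩
    · obtain ⟨q, hq, hqv⟩ := (mem_cl.1 h).resolve_left hv
      exact ⟨q, hq, Or.inl hqv⟩
    · rcases mem_cl.1 hw with h | ⟨q, hq, hqw⟩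
      · exact ⟨w, h, Or.inl hwv⟩
      · exact ⟨q, hq, Or.inr ⟨w, hqw, hwv⟩⟩
  · rw [← Nat.cast_sub (card_le_univ S), ← Nat.cast_sub (card_le_univ Q)]
    exact_mod_cast h

end Pool.Agent.Results.MP_cbd9f1_co.ThreeQuarters
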